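import Mathlib
import Pool.Agent.Y171.CG.Stm
import Pool.Agent.Y171.CG.Tool

/-!
# Project CG: recursion for `J`
-/

set_option autoImplicit false

open MeasureTheory Finset Set Filter Topology

namespace Pool.Agent.Y587.CG.Rec

open Pool.Agent.Y171.CG

/-- The polynomial `z ^ m * F g m z`. -/
noncomputable def PP (g : ℕ → ℝ) (b : ℝ) (m : ℕ) (z : ℝ) : ℝ :=
  ∑ c ∈ range (m + 1), (m.choose c : ℝ) * b ^ c * (z - b) ^ (m - c) * F g c b

theorem PP_deriv (g : ℕ → ℝ) (b : ℝ) (m : ℕ) (z : ℝ) :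
    HasDerivAt (PP g b (m + 1)) (((m : ℝ) + 1) * PP g b m z) z := by
  have h1 : ∀ c ∈ range (m + 1 + 1), HasDerivAt
      (fun z : ℝ => ((m + 1).choose c : ℝ) * b ^ c * (z - b) ^ (m + 1 - c) * F g c b)
      (((m + 1).choose c : ℝ) * b ^ c * (((m + 1 - c : ℕ) : ℝ) * (z - b) ^ (m + 1 - c - 1)) *
        F g c b) z := by
    intro c _
    have h2 : HasDerivAt (fun z : ℝ => (z - b) ^ (m + 1 - c))
        (((m + 1 - c : ℕ) : ℝ) * (z - b) ^ (m + 1 - c - 1)) z := by
      have := ((hasDerivAt_id z).sub_const b).fun_pow (m + 1 - c)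
      simpa using this
    exact (h2.const_mul _).mul_const _
  have h3 := HasDerivAt.fun_sum h1
  have h4 : ∑ c ∈ range (m + 1 + 1), (((m + 1).choose c : ℝ) * b ^ c *
      (((m + 1 - c : ℕ) : ℝ) * (z - b) ^ (m + 1 - c - 1)) * F g c b) =
      ((m : ℝ) + 1) * PP g b m z := by
    rw [Finset.sum_range_succ, Nat.sub_self]
    unfold PP
    rw [Finset.mul_sum]
    have h5 : ∀ c ∈ range (m + 1), (((m + 1).choose c : ℝ) * b ^ c *
        (((m + 1 - c : ℕ) : ℝ) * (z - b) ^ (m + 1 - c - 1)) * F g c b) =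
        ((m : ℝ) + 1) * ((m.choose c : ℝ) * b ^ c * (z - b) ^ (m - c) * F g c b) := by
      intro c hc
      have hc' : c ≤ m := by rw [Finset.mem_range] at hc; omega
      have h6 : (m.choose c : ℝ) * (m + 1) = ((m + 1).choose c : ℝ) * ((m + 1 - c : ℕ) : ℝ) := by
        exact_mod_cast Nat.choose_mul_succ_eq m c
      have h7 : m + 1 - c - 1 = m - c := by omega
      rw [h7]
      linear_combination (-(b ^ c * (z - b) ^ (m - c) * F g c b)) * h6
    rw [Finset.sum_congr rfl h5]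
    simp
  rw [← h4]
  exact h3

theorem PP_eq (hE : S_THE) (g : ℕ → ℝ) (b : ℝ) (hb : 0 < b) (m : ℕ)
    (hg : ∀ r, 2 ≤ r → r ≤ m → g r ≤ b) (z : ℝ) (hz : b ≤ z) :
    PP g b m z = z ^ m * F g m z := by
  have hz0 : 0 < z := hb.trans_le hz
  have h1 : b / z * z = b := div_mul_cancel₀ b hz0.ne'
  have h2 := hE g m (b / z) z (div_pos hb hz0) ((div_le_one hz0).2 hz) hz0
    (fun r hr hr' => by rw [h1]; exact hg r hr hr')
  rw [h2, h1, Finset.mul_sum]
  unfold PP
  refine Finset.sum_congr rfl fun c hc => ?_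
  have hc' : c ≤ m := by rw [Finset.mem_range] at hc; omega
  unfold bw
  have h3 : z ^ m = z ^ c * z ^ (m - c) := by rw [← pow_add]; congr 1; omega
  have h4 : z ^ c * (b / z) ^ c = b ^ c := by
    rw [← mul_pow]; congr 1; field_simp
  have h5 : z ^ (m - c) * (1 - b / z) ^ (m - c) = (z - b) ^ (m - c) := by
    rw [← mul_pow]; congr 1; field_simp
  rw [h3, ← h4, ← h5]
  ring

theorem integrable_tail (hM : S_MEF) (hT : S_TAI) (g : ℕ → ℝ) (b : ℝ) (hb : 0 < b) (m : ℕ)
    (hg : ∀ r, 2 ≤ r → r ≤ m → g r ≤ b) : IntegrableOn (fun z => 1 - F g m z) (Ioi b) := by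
  have h1 : IntegrableOn (fun z : ℝ => ((m : ℝ) * b) ^ 2 * z ^ (-2 : ℝ)) (Ioi b) :=
    (integrableOn_Ioi_rpow_of_lt (by norm_num) hb).const_mul _
  refine Integrable.mono' h1 ((measurable_const.sub (hM g m)).aestronglyMeasurable) ?_
  rw [ae_restrict_iff' measurableSet_Ioi]
  refine Eventually.of_forall fun z hz => ?_
  have hz0 : 0 < z := hb.trans hz
  rw [Real.norm_eq_abs, abs_of_nonneg (by linarith [F_le_one g m z])]
  refine (hT g m b z hg hb.le hz0).trans (le_of_eq ?_)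
  rw [Real.rpow_neg hz0.le, Real.rpow_ofNat, div_pow, div_eq_mul_inv]

theorem t (hE : S_THE) (hZ : S_ZER) (hM : S_MEF) (hT : S_TAI) : S_REC := by
  intro g n hn hpos hle
  obtain ⟨k, rfl⟩ : ∃ k, n = k + 2 := ⟨n - 2, by omega⟩
  set b := g (k + 2) with hb
  have hb0 : 0 < b := hpos (k + 2) hn le_rfl
  have hg2 : ∀ r, 2 ≤ r → r ≤ k + 2 → g r ≤ b := hle
  have hg1 : ∀ r, 2 ≤ r → r ≤ k + 1 → g r ≤ b := fun r h1 h2 => hle r h1 (by omega)
  have i2 := integrable_tail hM hT g b hb0 (k + 2) hg2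
  have i1 := integrable_tail hM hT g b hb0 (k + 1) hg1
  have e2 : ∀ z, b ≤ z → PP g b (k + 2) z = z ^ (k + 2) * F g (k + 2) z :=
    PP_eq hE g b hb0 (k + 2) hg2
  have e1 : ∀ z, b ≤ z → PP g b (k + 1) z = z ^ (k + 1) * F g (k + 1) z :=
    PP_eq hE g b hb0 (k + 1) hg1
  -- the primitive
  have hPhi : ∀ z, b ≤ z → z - PP g b (k + 2) z / z ^ (k + 1) = z * (1 - F g (k + 2) z) := by
    intro z hz
    have hz0 : 0 < z := hb0.trans_le hz
    rw [e2 z hz]
    field_simp
    ring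
  have hder : ∀ z, b ≤ z → HasDerivAt (fun z => z - PP g b (k + 2) z / z ^ (k + 1))
      (-((k : ℝ) + 1) * (1 - F g (k + 2) z) + ((k : ℝ) + 2) * (1 - F g (k + 1) z)) z := by
    intro z hz
    have hz0 : 0 < z := hb0.trans_le hz
    have h1 := PP_deriv g b (k + 1) z
    have h2 : HasDerivAt (fun z : ℝ => z ^ (k + 1)) (((k + 1 : ℕ) : ℝ) * z ^ k) z := by
      simpa using hasDerivAt_pow (k + 1) z
    have h3 := (hasDerivAt_id z).sub (h1.div h2 (by positivity))
    refine h3.congr_deriv ?_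
    rw [e1 z hz, show k + 1 + 1 = k + 2 from rfl, e2 z hz]
    push_cast
    field_simp
    ring
  have hlim : Tendsto (fun z => z - PP g b (k + 2) z / z ^ (k + 1)) atTop (𝓝 0) := by
    have h1 : Tendsto (fun z : ℝ => (((k + 2 : ℕ) : ℝ) * b) ^ 2 * z⁻¹) atTop (𝓝 0) := by
      have := tendsto_inv_atTop_zero (𝕜 := ℝ)
      simpa using this.const_mul ((((k + 2 : ℕ) : ℝ) * b) ^ 2)
    refine squeeze_zero' ?_ ?_ h1
    · filter_upwards [eventually_ge_atTop b] with z hz
      rw [hPhi z hz]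
      exact mul_nonneg (hb0.le.trans hz) (by linarith [F_le_one g (k + 2) z])
    · filter_upwards [eventually_ge_atTop b] with z hz
      have hz0 : 0 < z := hb0.trans_le hz
      rw [hPhi z hz]
      refine (mul_le_mul_of_nonneg_left (hT g (k + 2) b z hg2 hb0.le hz0) hz0.le).trans
        (le_of_eq ?_)
      field_simp
  have hfun : IntegrableOn (fun z => -((k : ℝ) + 1) * (1 - F g (k + 2) z) +
      ((k : ℝ) + 2) * (1 - F g (k + 1) z)) (Ioi b) := (i2.const_mul _).add (i1.const_mul _)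
  have hint := integral_Ioi_of_hasDerivAt_of_tendsto
    (hder b le_rfl).continuousAt.continuousWithinAt (fun z hz => hder z (le_of_lt hz)) hfun hlim
  rw [hPhi b le_rfl, hZ g (k + 2) b hn hb0 le_rfl,
    integral_add (i2.const_mul _) (i1.const_mul _), integral_const_mul, integral_const_mul] at hint
  -- the splitting
  have hJ : J g (k + 2) = b + ∫ z in Ioi b, (1 - F g (k + 2) z) := by
    unfold J
    have h1 : ∀ z ∈ Ioc (0 : ℝ) b, 1 - F g (k + 2) z = 1 := by
      intro z hz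
      rw [hZ g (k + 2) z hn hz.1 hz.2, sub_zero]
    have h2 : IntegrableOn (fun z => 1 - F g (k + 2) z) (Ioc 0 b) := by
      refine IntegrableOn.congr_fun (f := fun _ => (1 : ℝ)) ?_ (fun z hz => (h1 z hz).symm)
        measurableSet_Ioc
      exact integrableOn_const (by simp)
    rw [← Ioc_union_Ioi_eq_Ioi hb0.le, setIntegral_union (Ioc_disjoint_Ioi le_rfl)
      measurableSet_Ioi h2 i2, setIntegral_congr_fun measurableSet_Ioc h1]
    simp [hb0.le]
  rw [hJ]
  have hk : ((k : ℝ) + 1) ≠ 0 := by positivity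
  push_cast
  have hk2 : (k : ℝ) + 2 - 1 = k + 1 := by ring
  rw [hk2]
  field_simp
  linear_combination -hint

end Pool.Agent.Y587.CG.Rec
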